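import Pool.Agent.Helper66.GP.Defs

/-!
# FD : open sets of measure less than one do not contain all reals
-/

universe u

namespace Pool.Agent.Helper34.GP

open ZFSet MeasureTheory Pool.Agent.Helper66.SC Pool.Agent.Helper22.SC Pool.Agent.Helper66.GP

/-- `(n, t)` has extensions of every length all of whose initial segments avoid `b` -/
def Rr (N : Set ZFSet.{u}) (b n t : ZFSet.{u}) : Prop :=
  ∀ m ∈ ZFSet.omega, n ⊆ m → ∃ t' ∈ Pool.Agent.Helper66.SC.Pow N m, t' ∩ n = t ∧
    ∀ k ∈ ZFSet.omega, k ⊆ m → pair k (t' ∩ k) ∉ b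

open scoped Classical in
/-- the leftmost branch -/
noncomputable def br (N : Set ZFSet.{u}) (b : ZFSet.{u}) : ℕ → ZFSet.{u}
  | 0 => ∅
  | n + 1 => if Rr N b (Insert.insert (nat n) (nat n)) (br N b n) then br N b n
      else Insert.insert (nat n) (br N b n)

open scoped Classical in
theorem U_br : U KZ.{u} (fun N _ (b : ZFSet.{u}) =>
    ZFSet.iUnion (fun n : ULift.{u} ℕ => br N b n.down)) := by
  refine U.natUnion (C := KZ.{u}) (α := ZFSet.{u}) (z := fun _ _ _ => ∅)
    (S := fun N _ b x g => if Rr N b (Insert.insert x x) g then g else Insert.insert x g)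
    (H := fun N _ b n => br N b n) ?_ ?_ ?_ ?_
  · apply_rules (transparency := .reducible) (maxDepth := 400) using is_poly
  · refine U.ite (R := fun N _ (p : (ZFSet.{u} × ZFSet.{u}) × ZFSet.{u}) =>
      Rr N p.1.1 (Insert.insert p.1.2 p.1.2) p.2) ?_ ?_ ?_
    · unfold Rr
      apply_rules (transparency := .reducible) (maxDepth := 400) using is_poly
    · apply_rules (transparency := .reducible) (maxDepth := 400) using is_poly
    · apply_rules (transparency := .reducible) (maxDepth := 400) using is_poly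
  · intro N A _ a _
    rfl
  · intro N A _ a _ n
    rfl

theorem nat_sub {m n : ℕ} : (nat m : ZFSet.{u}) ⊆ nat n ↔ m ≤ n := by
  constructor
  · intro h
    by_contra hc
    have h1 : (nat n : ZFSet.{u}) ∈ nat m := nat_mem_nat.2 (by omega)
    exact lt_irrefl n (nat_mem_nat.1 (h h1))
  · intro h x hx
    obtain ⟨k, hk, rfl⟩ := mem_nat.1 hx
    exact nat_mem_nat.2 (lt_of_lt_of_le hk h)

theorem sub_nat_mem {N A : Set ZFSet.{u}} (hN : IsZF N A) : ∀ (n : ℕ) (t : ZFSet.{u}),
    t ⊆ nat n → t ∈ N := by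
  intro n
  induction n with
  | zero =>
    intro t ht
    have : t = ∅ := by
      ext x
      constructor
      · intro hx
        have := ht hx
        rwa [nat_zero] at this
      · intro hx
        exact absurd hx (ZFSet.notMem_empty x)
    rw [this]
    exact hN.empty_mem
  | succ n ih =>
    intro t ht
    have h1 := ih (t ∩ nat n) (fun x hx => (ZFSet.mem_inter.1 hx).2)
    by_cases hn : nat n ∈ t
    · have : t = Insert.insert (nat n) (t ∩ nat n) := by
        ext x
        rw [ZFSet.mem_insert_iff, ZFSet.mem_inter]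
        constructor
        · intro hx
          have h2 := ht hx
          rw [nat_succ, ZFSet.mem_insert_iff] at h2
          rcases h2 with h2 | h2
          · exact Or.inl h2
          · exact Or.inr ⟨hx, h2⟩
        · rintro (rfl | hx)
          · exact hn
          · exact hx.1
      rw [this]
      exact hN.insert_mem (hN.trans _ hN.omega _ (nat_mem_omega n)) h1
    · have : t = t ∩ nat n := by
        ext x
        rw [ZFSet.mem_inter]
        constructor
        · intro hx
          have h2 := ht hx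
          rw [nat_succ, ZFSet.mem_insert_iff] at h2
          rcases h2 with rfl | h2
          · exact absurd hx hn
          · exact ⟨hx, h2⟩
        · exact fun hx => hx.1
      rw [this]
      exact h1

theorem Rr_zero {N A : Set ZFSet.{u}} (hN : IsZF N A) {b r : ZFSet.{u}}
    (hr : ∀ n : ℕ, pair (nat n) (r ∩ nat n) ∉ b) : Rr N b (nat 0) ∅ := by
  intro m hm _
  obtain ⟨m, rfl⟩ := mem_omega.1 hm
  refine ⟨r ∩ nat m, ?_, ?_, ?_⟩
  · rw [mem_Pow]
    have h1 : r ∩ nat m ⊆ nat m := fun x hx => (ZFSet.mem_inter.1 hx).2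
    exact ⟨sub_nat_mem hN m _ h1, h1⟩
  · ext x
    rw [ZFSet.mem_inter, nat_zero]
    constructor
    · exact fun hx => hx.2
    · intro hx
      exact absurd hx (ZFSet.notMem_empty x)
  · intro k hk hkm
    obtain ⟨k, rfl⟩ := mem_omega.1 hk
    have : r ∩ nat m ∩ nat k = r ∩ nat k := by
      ext x
      simp only [ZFSet.mem_inter]
      constructor
      · exact fun h => ⟨h.1.1, h.2⟩
      · exact fun h => ⟨⟨h.1, hkm h.2⟩, h.2⟩
    rw [this]
    exact hr k

theorem Rr_succ {N A : Set ZFSet.{u}} (hN : IsZF N A) {b t : ZFSet.{u}} {n : ℕ}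
    (ht : t ⊆ nat n) (h : Rr N b (nat n) t) (h1 : ¬ Rr N b (nat (n + 1)) t) :
    Rr N b (nat (n + 1)) (Insert.insert (nat n) t) := by
  unfold Rr at h1
  push Not at h1
  obtain ⟨m0, hm0, hnm0, h0⟩ := h1
  obtain ⟨m0, rfl⟩ := mem_omega.1 hm0
  intro m1 hm1 hnm1
  obtain ⟨m1, rfl⟩ := mem_omega.1 hm1
  rw [nat_sub] at hnm0 hnm1
  obtain ⟨t', ht', htn, hav⟩ := h (nat (max m0 m1)) (nat_mem_omega _) (nat_sub.2 (by omega))
  rw [mem_Pow] at ht'
  have key : ∀ m : ℕ, m ≤ max m0 m1 → t' ∩ nat m ∈ Pool.Agent.Helper66.SC.Pow N (nat m) ∧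
      ∀ k ∈ ZFSet.omega, k ⊆ nat m → pair k (t' ∩ nat m ∩ k) ∉ b := by
    intro m hm
    refine ⟨?_, ?_⟩
    · rw [mem_Pow]
      have h1 : t' ∩ nat m ⊆ nat m := fun x hx => (ZFSet.mem_inter.1 hx).2
      exact ⟨sub_nat_mem hN m _ h1, h1⟩
    · intro k hk hkm
      have : t' ∩ nat m ∩ k = t' ∩ k := by
        ext x
        simp only [ZFSet.mem_inter]
        constructor
        · exact fun h => ⟨h.1.1, h.2⟩
        · exact fun h => ⟨⟨h.1, hkm h.2⟩, h.2⟩
      rw [this]
      exact hav k hk (fun x hx => nat_sub.2 hm (hkm hx))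
  have htt : ∀ m : ℕ, n + 1 ≤ m → t' ∩ nat m ∩ nat (n + 1) = t' ∩ nat (n + 1) := by
    intro m hm
    ext x
    simp only [ZFSet.mem_inter]
    constructor
    · exact fun h => ⟨h.1.1, h.2⟩
    · exact fun h => ⟨⟨h.1, nat_sub.2 hm h.2⟩, h.2⟩
  by_cases hn : nat n ∈ t'
  · refine ⟨t' ∩ nat m1, (key m1 (le_max_right _ _)).1, ?_, (key m1 (le_max_right _ _)).2⟩
    rw [htt m1 hnm1]
    ext x
    rw [ZFSet.mem_inter, nat_succ, ZFSet.mem_insert_iff, ZFSet.mem_insert_iff, ← htn,
      ZFSet.mem_inter]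
    constructor
    · rintro ⟨hx, rfl | hx'⟩
      · exact Or.inl rfl
      · exact Or.inr ⟨hx, hx'⟩
    · rintro (rfl | ⟨hx, hx'⟩)
      · exact ⟨hn, Or.inl rfl⟩
      · exact ⟨hx, Or.inr hx'⟩
  · exfalso
    obtain ⟨k, hk, hkm, hb⟩ := h0 (t' ∩ nat m0) (key m0 (le_max_left _ _)).1 (by
      rw [htt m0 hnm0]
      ext x
      rw [ZFSet.mem_inter, nat_succ, ZFSet.mem_insert_iff, ← htn, ZFSet.mem_inter]
      constructor
      · rintro ⟨hx, rfl | hx'⟩
        · exact absurd hx hn
        · exact ⟨hx, hx'⟩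
      · rintro ⟨hx, hx'⟩
        exact ⟨hx, Or.inr hx'⟩)
    exact (key m0 (le_max_left _ _)).2 k hk hkm hb

theorem br_spec {N A : Set ZFSet.{u}} (hN : IsZF N A) {b r : ZFSet.{u}}
    (hr : ∀ n : ℕ, pair (nat n) (r ∩ nat n) ∉ b) (n : ℕ) :
    br N b n ⊆ nat n ∧ Rr N b (nat n) (br N b n) := by
  classical
  induction n with
  | zero => exact ⟨fun x hx => absurd hx (ZFSet.notMem_empty x), Rr_zero hN hr⟩
  | succ n ih =>
    obtain ⟨h1, h2⟩ := ih
    have e : br N b (n + 1) = if Rr N b (nat (n + 1)) (br N b n) then br N b n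
        else Insert.insert (nat n) (br N b n) := by
      rw [nat_succ]
      rfl
    rw [e]
    split_ifs with h
    · exact ⟨fun x hx => nat_sub.2 (Nat.le_succ n) (h1 hx), h⟩
    · refine ⟨?_, Rr_succ hN h1 h2 h⟩
      intro x hx
      rw [ZFSet.mem_insert_iff] at hx
      rcases hx with rfl | hx
      · exact nat_mem_nat.2 (Nat.lt_succ_self n)
      · exact nat_sub.2 (Nat.le_succ n) (h1 hx)

theorem br_step {N : Set ZFSet.{u}} {b : ZFSet.{u}} (n : ℕ) :
    br N b (n + 1) = br N b n ∨ br N b (n + 1) = Insert.insert (nat n) (br N b n) := by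
  classical
  have e : br N b (n + 1) = if Rr N b (Insert.insert (nat n) (nat n)) (br N b n) then br N b n
      else Insert.insert (nat n) (br N b n) := rfl
  rw [e]
  split_ifs with h
  · exact Or.inl rfl
  · exact Or.inr rfl

theorem br_coh {N : Set ZFSet.{u}} {b : ZFSet.{u}} (n : ℕ) (m : ℕ) (h : n ≤ m) (x : ZFSet.{u})
    (hx : x ∈ nat n) : x ∈ br N b m ↔ x ∈ br N b n := by
  induction m, h using Nat.le_induction with
  | base => rfl
  | succ m hm ih =>
    rw [← ih]
    rcases br_step (N := N) (b := b) m with h | h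
    · rw [h]
    · rw [h, ZFSet.mem_insert_iff]
      constructor
      · rintro (rfl | hx')
        · exact absurd (nat_mem_nat.1 hx) (by omega)
        · exact hx'
      · exact Or.inr

theorem st_FD : ST_FD.{u} := by
  intro N b hN hb hbS hcoin
  obtain ⟨x0, hx0⟩ : ∃ x0 : ℕ → Bool, x0 ∉ US b := by
    by_contra hc
    push Not at hc
    have : US b = Set.univ := Set.eq_univ_of_forall hc
    rw [this] at hcoin
    have h1 : coin Set.univ = 1 := by
      unfold coin
      exact measure_univ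
    rw [h1] at hcoin
    exact lt_irrefl _ hcoin
  set r : ZFSet.{u} := rl x0 with hrdef
  have hr : ∀ n : ℕ, pair (nat n) (r ∩ nat n) ∉ b := by
    intro n hn
    exact hx0 ⟨n, hn⟩
  have hspec := br_spec hN hr
  set y : ZFSet.{u} := ZFSet.iUnion (fun n : ULift.{u} ℕ => br N b n.down) with hy
  have hyN : y ∈ N := by
    have := U_br.{u}.closed (N := N) (A := ∅) hN (a := b) (by simpa using hb)
    simpa using this
  have hyn : ∀ n : ℕ, y ∩ nat n = br N b n := by
    intro n
    ext x
    rw [ZFSet.mem_inter, hy, ZFSet.mem_iUnion]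
    constructor
    · rintro ⟨⟨⟨m⟩, hm⟩, hx⟩
      simp only at hm
      rcases le_total n m with h | h
      · exact (br_coh n m h x hx).1 hm
      · exact (br_coh m n h x ((hspec m).1 hm)).2 hm
    · intro hx
      exact ⟨⟨⟨n⟩, hx⟩, (hspec n).1 hx⟩
  refine ⟨y, hyN, ?_, ?_⟩
  · intro x hx
    rw [hy, ZFSet.mem_iUnion] at hx
    obtain ⟨⟨m⟩, hm⟩ := hx
    obtain ⟨k, _, rfl⟩ := mem_nat.1 ((hspec m).1 hm)
    exact nat_mem_omega k
  · rintro ⟨n, hn⟩
    have hn' : pair (nat n) (y ∩ nat n) ∈ b := hn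
    rw [hyn n] at hn'
    obtain ⟨t', ht', ht2, hav⟩ := (hspec n).2 (nat n) (nat_mem_omega n) (fun x hx => hx)
    have := hav (nat n) (nat_mem_omega n) (fun x hx => hx)
    rw [ht2] at this
    exact this hn'

end Pool.Agent.Helper34.GP
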